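import Mathlib
import Pool.Agent.Y327.Recur

/-! # Forms near an integral form: expansion of one row by a unit -/

open NumberField Filter Topology Matrix

namespace Pool.Agent.R750.SI

open H715R2 Pool.Agent.Y327

set_option linter.unusedSectionVars false

variable {d : ℕ}

/-- a matrix of square zero added to the identity is invertible -/
lemma det_one_add_ne {X : Matrix (Fin d) (Fin d) ℝ} {i : Fin d} (hii : X i i = 0)
    (hrow : ∀ k l, k ≠ i → X k l = 0) : (1 + X).det ≠ 0 := by
  have hXX : X * X = 0 := by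
    ext k l
    rw [Matrix.mul_apply, Matrix.zero_apply]
    refine Finset.sum_eq_zero fun m _ => ?_
    by_cases hk : k = i
    · by_cases hm : m = i
      · rw [hk, hm, hii, zero_mul]
      · rw [hrow m l hm, mul_zero]
    · rw [hrow k m hk, zero_mul]
  have h1 : (1 + X) * (1 - X) = 1 := by
    rw [add_mul, mul_sub, mul_sub, one_mul, mul_one, one_mul, hXX]
    abel
  intro h0
  have h2 := congrArg Matrix.det h1
  rw [det_mul, h0, zero_mul, det_one] at h2
  exact zero_ne_one h2

section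

variable {K : Type*} [Field K] [NumberField K]

/-- one row of a norm form changed by a combination of the other rows: the values are dense -/
lemma dense_row (D : Dat K d) (t : Fin d → (K →+* ℂ)) (hbij : Function.Bijective t)
    (hreal : ∀ τ : K →+* ℂ, ComplexEmbedding.IsReal τ) (B : Matrix (Fin d) (Fin d) ℝ)
    (c : Fin d → ℝ) (hBc : ∀ k j, ((B k j : ℝ) : ℂ) = t k (D.b j)) (hBdet : B.det ≠ 0)
    (hc0 : ∀ k, c k ≠ 0) {X : Matrix (Fin d) (Fin d) ℝ} {i j : Fin d} (hij : i ≠ j)
    (hii : X i i = 0) (hrow : ∀ k l, k ≠ i → X k l = 0) (hX : X i j ≠ 0) :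
    VV ((1 + X) * (diagonal c * B)) = Set.univ := by
  classical
  have hdet : ((1 + X) * (diagonal c * B)).det ≠ 0 := by
    rw [det_mul, det_mul, det_diagonal]
    exact mul_ne_zero (det_one_add_ne hii hrow)
      (mul_ne_zero (Finset.prod_ne_zero_iff.2 fun k _ => hc0 k) hBdet)
  set H : Fin d → (K →+* ℂ) → ℂ := fun k τ =>
    ∑ l, if t l = τ then (((1 + X) k l * c l : ℝ) : ℂ) else 0 with hHdef
  have hHt : ∀ k l, H k (t l) = (((1 + X) k l * c l : ℝ) : ℂ) := by
    intro k l
    simp only [hHdef]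
    rw [Finset.sum_eq_single l]
    · rw [if_pos rfl]
    · intro m _ hm
      rw [if_neg fun h => hm (hbij.1 h)]
    · intro h; exact absurd (Finset.mem_univ _) h
  have hH : ∀ k m, ((((1 + X) * (diagonal c * B)) k m : ℝ) : ℂ)
      = ∑ τ : K →+* ℂ, H k τ * τ (D.b m) := by
    intro k m
    have h1 : ∑ τ : K →+* ℂ, H k τ * τ (D.b m) = ∑ l, H k (t l) * t l (D.b m) :=
      (Fintype.sum_bijective t hbij _ _ fun l => rfl).symm
    rw [h1, Matrix.mul_apply]
    push_cast
    refine Finset.sum_congr rfl fun l _ => ?_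
    rw [hHt, ← hBc, diagonal_mul]
    push_cast
    ring
  obtain ⟨k, hk⟩ : ∃ k : Fin d, k ≠ i := ⟨j, hij.symm⟩
  let D' : Dat K d :=
    { hd := D.hd
      b := D.b
      N := D.N
      hN := D.hN
      hNe := D.hNe
      act := D.act
      g := (1 + X) * (diagonal c * B)
      hg := hdet
      H := H
      hH := hH
      i₀ := k
      φ := t k
      hφ := hreal (t k)
      hi₀ := by
        intro τ hτ
        obtain ⟨l, rfl⟩ := hbij.2 τ
        rw [hHt]
        have hkl : k ≠ l := fun h => hτ (by rw [h])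
        rw [Matrix.add_apply, Matrix.one_apply_ne hkl, hrow k l hk]
        simp }
  rcases D'.monomial_or_dense with h1 | h1
  · exfalso
    obtain ⟨τ₀, hτ₀⟩ := h1 i
    have hi1 : H i (t i) ≠ 0 := by
      rw [hHt, Matrix.add_apply, Matrix.one_apply_eq, hii, add_zero, one_mul]
      exact_mod_cast hc0 i
    have hj1 : H i (t j) ≠ 0 := by
      rw [hHt, Matrix.add_apply, Matrix.one_apply_ne hij, zero_add]
      exact_mod_cast mul_ne_zero hX (hc0 j)
    have h2 : t i = τ₀ := by
      by_contra h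
      exact hi1 (hτ₀ _ h)
    have h3 : t j = τ₀ := by
      by_contra h
      exact hj1 (hτ₀ _ h)
    exact hij (hbij.1 (h2.trans h3.symm))
  · exact h1

end

/-- the unit expanding the row `i` -/
theorem exists_expand (hd : 3 ≤ d) {g : Matrix (Fin d) (Fin d) ℝ} (hg : g.det ≠ 0) {ν : ℝ}
    (hν : 0 < ν) (hnu : HasNu g ν) (hP : PropInt g) :
    (∃ R : ℝ, 0 ≤ R ∧ ∀ p : Fin d → ℝ, ∑ k, p k = 0 → ∃ (a : Fin d → ℝ)
      (γ : Matrix (Fin d) (Fin d) ℤ), (∀ k, 0 < a k) ∧ ∏ k, a k = 1 ∧ IsUnit γ.det ∧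
        (∀ k, |Real.log (a k) - p k| ≤ R) ∧ diagonal a * g = g * zR γ) ∧
    ∀ (X : Matrix (Fin d) (Fin d) ℝ) (i j : Fin d), i ≠ j → X i i = 0 →
      (∀ k l, k ≠ i → X k l = 0) → X i j ≠ 0 → VV ((1 + X) * g) = Set.univ := by
  obtain ⟨K, hNF, D, t, B, c, hbij, hreal, hBc, hBdet, hgB⟩ := dat_of_propInt hd hg hν hnu hP
  have hc0 : ∀ k, c k ≠ 0 := by
    intro k h0
    apply hg
    rw [hgB, det_mul, det_diagonal, Finset.prod_eq_zero (Finset.mem_univ k) h0, zero_mul]
  refine ⟨?_, ?_⟩
  · obtain ⟨R, hR0, hR⟩ := near_real hreal D.N D.hN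
    refine ⟨R, hR0, fun p hp => ?_⟩
    obtain ⟨v, hv⟩ := hR (fun τ => p (Function.surjInv hbij.2 τ)) (by
      have h1 : ∑ τ : K →+* ℂ, p (Function.surjInv hbij.2 τ) = ∑ k, p k := by
        refine (Fintype.sum_bijective t hbij _ _ fun k => ?_).symm
        rw [Function.leftInverse_surjInv hbij k]
      rw [h1, hp])
    obtain ⟨γ, hγ, hBγ, hprod⟩ := unit_act D t hbij hreal B hBc hBdet v
    refine ⟨fun k => Real.exp (lg D.N (t k) v), γ, fun k => Real.exp_pos _, hprod, hγ, ?_, ?_⟩
    · intro k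
      rw [Real.log_exp]
      have := hv (t k)
      rwa [Function.leftInverse_surjInv hbij k] at this
    · rw [hgB, Matrix.mul_assoc, hBγ, ← Matrix.mul_assoc, ← Matrix.mul_assoc,
        diagonal_mul_diagonal, diagonal_mul_diagonal]
      congr 2
      funext k
      exact mul_comm _ _
  · intro X i j hij hii hrow hX
    rw [hgB]
    exact dense_row D t hbij hreal B c hBc hBdet hc0 hij hii hrow hX

end Pool.Agent.R750.SI
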