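import Mathlib
import Pool.Agent.R750.SI.Basic

/-! # A finite set of integer points serving all matrices with one large row -/

open NumberField Filter Topology Matrix

namespace Pool.Agent.R750.SI

open H715R2 Pool.Agent.Y327

variable {d : ℕ}

/-- the nonzero integer points of norm at most `n` -/
noncomputable def pts (d n : ℕ) : Finset (Fin d → ℤ) :=
  (Finset.Icc (fun _ : Fin d => -(n : ℤ)) (fun _ => (n : ℤ))).erase 0

lemma mem_pts {n : ℕ} {x : Fin d → ℤ} : x ∈ pts d n ↔ x ≠ 0 ∧ ∀ k, |x k| ≤ n := by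
  rw [pts, Finset.mem_erase, Finset.mem_Icc]
  refine and_congr_right fun _ => ⟨fun h k => abs_le.2 ⟨h.1 k, h.2 k⟩, fun h => ?_⟩
  exact ⟨fun k => (abs_le.1 (h k)).1, fun k => (abs_le.1 (h k)).2⟩

theorem finite_cover (hd : 3 ≤ d) {g : Matrix (Fin d) (Fin d) ℝ} (hg : g.det ≠ 0) {ν : ℝ}
    (hν : 0 < ν) (hnu : HasNu g ν) (hP : PropInt g) (R : ℝ) (hR : 0 ≤ R) (ε T : ℝ) (hε : 0 < ε) :
    ∃ n : ℕ, ∃ η : ℝ, 0 < η ∧ ∀ (M : Matrix (Fin d) (Fin d) ℝ) (i j : Fin d) (t : ℝ), i ≠ j →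
      (∀ k, M k k = 0) → (∀ l, |M i l| ≤ Real.exp (2 * R)) → Real.exp (-(2 * R)) ≤ |M i j| →
      (∀ k l, k ≠ i → |M k l| ≤ η) → |t| ≤ T →
      ∃ x ∈ pts d n, |FF ((1 + M) * g) (iR x) - t| < ε := by
  classical
  by_contra hcon
  push Not at hcon
  have h1 : ∀ n : ℕ, ∃ q : (Fin d × Fin d) × Matrix (Fin d) (Fin d) ℝ × ℝ, q.1.1 ≠ q.1.2 ∧
      (∀ k, q.2.1 k k = 0) ∧ (∀ l, |q.2.1 q.1.1 l| ≤ Real.exp (2 * R)) ∧
      Real.exp (-(2 * R)) ≤ |q.2.1 q.1.1 q.1.2| ∧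
      (∀ k l, k ≠ q.1.1 → |q.2.1 k l| ≤ 1 / ((n : ℝ) + 1)) ∧ |q.2.2| ≤ T ∧
      ∀ x ∈ pts d n, ε ≤ |FF ((1 + q.2.1) * g) (iR x) - q.2.2| := by
    intro n
    obtain ⟨M, i, j, t, h1, h2, h3, h4, h5, h6, h7⟩ := hcon n (1 / ((n : ℝ) + 1)) (by positivity)
    exact ⟨((i, j), M, t), h1, h2, h3, h4, h5, h6, h7⟩
  choose q hq1 hq2 hq3 hq4 hq5 hq6 hq7 using h1
  have hexp1 : (1 : ℝ) ≤ Real.exp (2 * R) := Real.one_le_exp (by positivity)
  have hcpt : IsCompact ((Set.univ : Set (Fin d × Fin d)) ×ˢ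
      ({h : Matrix (Fin d) (Fin d) ℝ | ∀ i j, |h i j| ≤ Real.exp (2 * R)} ×ˢ Set.Icc (-T) T)) :=
    isCompact_univ.prod ((isCompact_box _).prod isCompact_Icc)
  have hmem : ∀ n, q n ∈ ((Set.univ : Set (Fin d × Fin d)) ×ˢ
      ({h : Matrix (Fin d) (Fin d) ℝ | ∀ i j, |h i j| ≤ Real.exp (2 * R)} ×ˢ Set.Icc (-T) T)) := by
    intro n
    refine ⟨Set.mem_univ _, ?_, abs_le.1 (hq6 n)⟩
    intro k l
    by_cases hk : k = (q n).1.1
    · rw [hk]; exact hq3 n l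
    · refine (hq5 n k l hk).trans (le_trans ?_ hexp1)
      rw [div_le_one (by positivity)]
      have : (0 : ℝ) ≤ n := by positivity
      linarith
  obtain ⟨⟨⟨i, j⟩, M, t⟩, -, φ, hφ, hlim⟩ := hcpt.tendsto_subseq hmem
  have hlim1 : Tendsto (fun n => (q (φ n)).1) atTop (𝓝 (i, j)) :=
    (continuous_fst.tendsto _).comp hlim
  have hlim2 : Tendsto (fun n => (q (φ n)).2.1) atTop (𝓝 M) :=
    ((continuous_fst.comp continuous_snd).tendsto _).comp hlim
  have hlim3 : Tendsto (fun n => (q (φ n)).2.2) atTop (𝓝 t) :=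
    ((continuous_snd.comp continuous_snd).tendsto _).comp hlim
  have hev : ∀ᶠ n in atTop, (q (φ n)).1 = (i, j) := by
    rw [nhds_discrete, tendsto_pure] at hlim1
    exact hlim1
  have hent : ∀ k l, Tendsto (fun n => (q (φ n)).2.1 k l) atTop (𝓝 (M k l)) := fun k l =>
    ((continuous_apply_apply k l).tendsto M).comp hlim2
  have hij : i ≠ j := by
    obtain ⟨n, hn⟩ := hev.exists
    have := hq1 (φ n)
    rw [hn] at this
    exact this
  have hii : M i i = 0 := by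
    refine tendsto_nhds_unique (hent i i) ?_
    exact (tendsto_const_nhds (x := (0 : ℝ))).congr fun n => (hq2 (φ n) i).symm
  have hrow : ∀ k l, k ≠ i → M k l = 0 := by
    intro k l hk
    refine tendsto_nhds_unique (hent k l) ?_
    have hz : Tendsto (fun n : ℕ => 1 / (((φ n : ℕ) : ℝ) + 1)) atTop (𝓝 0) :=
      tendsto_one_div_add_atTop_nhds_zero_nat.comp hφ.tendsto_atTop
    refine squeeze_zero_norm' ?_ hz
    filter_upwards [hev] with n hn
    rw [Real.norm_eq_abs]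
    refine hq5 (φ n) k l ?_
    rw [hn]; exact hk
  have hMij : M i j ≠ 0 := by
    have h2 : Real.exp (-(2 * R)) ≤ |M i j| := by
      refine ge_of_tendsto ((hent i j).abs) ?_
      filter_upwards [hev] with n hn
      have := hq4 (φ n)
      rwa [hn] at this
    intro h0
    rw [h0, abs_zero] at h2
    exact absurd h2 (not_le.2 (Real.exp_pos _))
  have hdense := (exists_expand hd hg hν hnu hP).2 M i j hij hii hrow hMij
  obtain ⟨x, hx, hxt⟩ := dense_ne (by omega) hdense t ε hε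
  have hcont : Tendsto (fun n => FF ((1 + (q (φ n)).2.1) * g) (iR x) - (q (φ n)).2.2) atTop
      (𝓝 (FF ((1 + M) * g) (iR x) - t)) := by
    refine Tendsto.sub ?_ hlim3
    have hc : Continuous (fun M : Matrix (Fin d) (Fin d) ℝ => FF ((1 + M) * g) (iR x)) :=
      (continuous_FF (iR x)).comp ((continuous_const.add continuous_id).matrix_mul continuous_const)
    exact (hc.tendsto M).comp hlim2
  have h3 := (hcont.abs).eventually (gt_mem_nhds hxt)
  obtain ⟨N, hN⟩ : ∃ N : ℕ, ∀ k, |x k| ≤ N := by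
    refine ⟨∑ k, (x k).natAbs, fun k => ?_⟩
    rw [Int.abs_eq_natAbs]
    exact_mod_cast Finset.single_le_sum (f := fun k => (x k).natAbs) (fun _ _ => Nat.zero_le _)
      (Finset.mem_univ k)
  obtain ⟨n, hn1, hn2⟩ := (h3.and (hφ.tendsto_atTop.eventually_ge_atTop N)).exists
  have h4 := hq7 (φ n) x (mem_pts.2 ⟨hx, fun k => (hN k).trans (by exact_mod_cast hn2)⟩)
  exact absurd hn1 (not_lt.2 h4)

end Pool.Agent.R750.SI
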