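import Mathlib
import Pool.Agent.R750.SI.Cover

/-! # Many integer points at which a perturbed form is close to a given number -/

open NumberField Filter Topology Matrix

namespace Pool.Agent.R750.SI

open H715R2 Pool.Agent.Y327

variable {d : ℕ}

/-- conjugation of a perturbation by a unit -/
lemma expand_eq {g X : Matrix (Fin d) (Fin d) ℝ} {a : Fin d → ℝ} {γ : Matrix (Fin d) (Fin d) ℤ}
    (ha0 : ∀ k, 0 < a k) (ha1 : ∏ k, a k = 1) (hγ : IsUnit γ.det)
    (hag : diagonal a * g = g * zR γ) (x : Fin d → ℤ) :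
    FF ((1 + X) * g) (iR (γ⁻¹ *ᵥ x)) =
      FF ((1 + Matrix.of fun k l => a k * X k l * (a l)⁻¹) * g) (iR x) := by
  have h1 : g * zR γ⁻¹ = diagonal (fun k => (a k)⁻¹) * g := by
    have h2 : diagonal (fun k => (a k)⁻¹) * diagonal a = 1 := by
      rw [diagonal_mul_diagonal]
      have : (fun i => (a i)⁻¹ * a i) = fun _ => (1 : ℝ) := by
        funext i; exact inv_mul_cancel₀ (ha0 i).ne'
      rw [this, diagonal_one]
    calc g * zR γ⁻¹ = diagonal (fun k => (a k)⁻¹) * (diagonal a * g) * zR γ⁻¹ := by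
          rw [← Matrix.mul_assoc, h2, Matrix.one_mul]
      _ = diagonal (fun k => (a k)⁻¹) * g * (zR γ * zR γ⁻¹) := by
          rw [hag]; simp only [Matrix.mul_assoc]
      _ = _ := by rw [zR_inv hγ, Matrix.mul_one]
  have h3 : diagonal a * ((1 + X) * g) * zR γ⁻¹ =
      (1 + Matrix.of fun k l => a k * X k l * (a l)⁻¹) * g := by
    have h4 : diagonal a * (1 + X) * diagonal (fun k => (a k)⁻¹) =
        1 + Matrix.of fun k l => a k * X k l * (a l)⁻¹ := by
      ext k l
      rw [mul_diagonal, diagonal_mul, Matrix.add_apply, Matrix.add_apply, Matrix.of_apply]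
      by_cases hkl : k = l
      · subst hkl
        rw [Matrix.one_apply_eq]
        have := (ha0 k).ne'
        field_simp
      · rw [Matrix.one_apply_ne hkl]
        ring
    rw [← h4, Matrix.mul_assoc (diagonal a), Matrix.mul_assoc (1 + X), h1]
    simp only [Matrix.mul_assoc]
  rw [← h3, FF_orb ha1]

/-- the coordinates of the new point -/
lemma mulVec_inv_unit {g : Matrix (Fin d) (Fin d) ℝ} {a : Fin d → ℝ}
    {γ : Matrix (Fin d) (Fin d) ℤ} (hγ : IsUnit γ.det)
    (hag : diagonal a * g = g * zR γ) (x : Fin d → ℤ) (k : Fin d) :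
    a k * (g *ᵥ iR (γ⁻¹ *ᵥ x)) k = (g *ᵥ iR x) k := by
  have h1 : diagonal a *ᵥ (g *ᵥ iR (γ⁻¹ *ᵥ x)) = g *ᵥ iR x := by
    rw [← zR_mulVec_iR, mulVec_mulVec, mulVec_mulVec, hag, Matrix.mul_assoc, zR_inv hγ,
      Matrix.mul_one]
  rw [← h1, mulVec_diagonal]

theorem many (hd : 3 ≤ d) {g : Matrix (Fin d) (Fin d) ℝ} (hg : g.det ≠ 0) {ν : ℝ}
    (hν : 0 < ν) (hnu : HasNu g ν) (hP : PropInt g) (ε T : ℝ) (hε : 0 < ε) :
    ∃ C c δ₀ : ℝ, 0 < C ∧ 0 < c ∧ 0 < δ₀ ∧ ∀ (X : Matrix (Fin d) (Fin d) ℝ) (δ : ℝ),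
      (∀ k, X k k = 0) → (∀ i j, |X i j| ≤ δ) → (∃ i j, |X i j| = δ) → 0 < δ → δ < δ₀ →
      ∀ t Z : ℝ, |t| ≤ T → C * δ ^ (-(1 / (d : ℝ))) ≤ Z → Z ≤ δ⁻¹ →
      ∃ S : Finset (Fin d → ℤ), (∀ x ∈ S, x ≠ 0 ∧ (∀ k, |(x k : ℝ)| ≤ Z) ∧
        |FF ((1 + X) * g) (iR x) - t| < ε) ∧
        c * (1 + Real.log (Z * δ ^ (1 / (d : ℝ)))) ^ (d - 2) ≤ S.card := by
  classical
  obtain ⟨⟨R, hR, hunit⟩, -⟩ := exists_expand hd hg hν hnu hP
  obtain ⟨N, η, hη, hcov⟩ := finite_cover hd hg hν hnu hP R hR ε T hε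
  have hd0 : 0 < d := by omega
  have hdR : (0 : ℝ) < d := by exact_mod_cast hd0
  -- constants
  set C₁ : ℝ := 1 + ∑ x ∈ pts d N, ∑ k, ∑ l, |g⁻¹ k l| * |(g *ᵥ iR x) l| with hC₁
  have hC₁1 : 1 ≤ C₁ := by
    rw [hC₁]
    have : 0 ≤ ∑ x ∈ pts d N, ∑ k, ∑ l, |g⁻¹ k l| * |(g *ᵥ iR x) l| :=
      Finset.sum_nonneg fun x _ => Finset.sum_nonneg fun k _ => Finset.sum_nonneg fun l _ =>
        mul_nonneg (abs_nonneg _) (abs_nonneg _)
    linarith
  set C₂ : ℝ := Real.log C₁ + R with hC₂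
  have hC₂0 : 0 ≤ C₂ := add_nonneg (Real.log_nonneg hC₁1) hR
  set s : ℝ := |2 * R - Real.log η| with hs
  have hs0 : 0 ≤ s := abs_nonneg _
  set w : ℝ := 4 * R + 1 with hw
  have hw0 : 0 < w := by positivity
  set P : ℝ := (pts d N).card + 1 with hPdef
  have hP0 : 0 < P := by positivity
  refine ⟨Real.exp C₂, 1 / (P * (w + 1 + C₂) ^ (d - 2)), Real.exp (-(d * s)), Real.exp_pos _,
    by positivity, Real.exp_pos _, ?_⟩
  intro X δ hX0 hXδ hXmax hδ hδ₀ t Z ht hZ1 hZ2
  obtain ⟨i, j, hijX⟩ := hXmax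
  have hij : i ≠ j := by
    rintro rfl
    rw [hX0, abs_zero] at hijX
    exact hδ.ne hijX
  set Λ : ℝ := - Real.log δ with hΛ
  have hδΛ : δ = Real.exp (-Λ) := by rw [hΛ, neg_neg, Real.exp_log hδ]
  have hΛs : d * s ≤ Λ := by
    have h1 := Real.log_lt_log hδ hδ₀
    rw [Real.log_exp] at h1
    rw [hΛ]; linarith
  have hΛ0 : 0 ≤ Λ := le_trans (by positivity) hΛs
  have hZ0 : 0 < Z := lt_of_lt_of_le (by positivity) hZ1
  set L : ℝ := Real.log (Z * δ ^ (1 / (d : ℝ))) with hL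
  have hLeq : L = Real.log Z - Λ / d := by
    rw [hL, Real.log_mul hZ0.ne' (by positivity), Real.log_rpow hδ, hΛ]
    ring
  have hLC : C₂ ≤ L := by
    have h1 := Real.log_le_log (by positivity) hZ1
    rw [Real.log_mul (Real.exp_pos _).ne' (by positivity), Real.log_exp, Real.log_rpow hδ] at h1
    rw [hLeq]
    have h2 : -(1 / (d : ℝ)) * Real.log δ = Λ / d := by rw [hΛ]; ring
    rw [h2] at h1
    linarith
  have hLΛ : L ≤ Λ - Λ / d := by
    have h1 := Real.log_le_log hZ0 hZ2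
    rw [Real.log_inv] at h1
    rw [hLeq, hΛ] at *
    linarith
  set n : ℕ := ⌊(L - C₂) / w⌋₊ with hn
  have hn1 : w * n ≤ L - C₂ := by
    have h1 : (n : ℝ) ≤ (L - C₂) / w := Nat.floor_le (div_nonneg (by linarith) hw0.le)
    rw [le_div_iff₀ hw0] at h1
    linarith
  have hn2 : L - C₂ < w * (n + 1) := by
    have h1 : (L - C₂) / w < (n : ℝ) + 1 := Nat.lt_floor_add_one _
    rw [div_lt_iff₀ hw0] at h1
    linarith
  have hwn : w * n ≤ Λ - s := by
    have h1 : s ≤ Λ / d := by rw [le_div_iff₀ hdR]; linarith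
    linarith
  -- the exponents
  let b : ({k : Fin d // k ≠ i ∧ k ≠ j} → Fin (n + 1)) → Fin d → ℝ := fun m k =>
    if k = i then Λ else if h : k ≠ i ∧ k ≠ j then w * ((m ⟨k, h⟩ : ℕ) : ℝ) else 0
  have hbi : ∀ m, b m i = Λ := fun m => by simp [b]
  have hbj : ∀ m, b m j = 0 := fun m => by simp [b, hij.symm]
  have hbk : ∀ m (k : {k : Fin d // k ≠ i ∧ k ≠ j}), b m k.1 = w * ((m k : ℕ) : ℝ) := by
    intro m k
    simp only [b]
    rw [if_neg k.2.1, dif_pos k.2]
  have hb0 : ∀ m k, 0 ≤ b m k := by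
    intro m k
    simp only [b]
    split_ifs
    · exact hΛ0
    · positivity
    · exact le_rfl
  have hbn : ∀ m k, k ≠ i → b m k ≤ w * n := by
    intro m k hk
    simp only [b]
    rw [if_neg hk]
    split_ifs with h
    · refine mul_le_mul_of_nonneg_left ?_ hw0.le
      exact_mod_cast Nat.lt_succ_iff.1 (m ⟨k, h⟩).2
    · positivity
  have hbsum : ∀ m, ∑ k, b m k ≤ Λ + d * (w * n) := by
    intro m
    rw [← Finset.add_sum_erase _ _ (Finset.mem_univ i), hbi]
    have h1 : ∑ k ∈ Finset.univ.erase i, b m k ≤ ∑ k ∈ Finset.univ.erase i, w * n :=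
      Finset.sum_le_sum fun k hk => hbn m k (Finset.ne_of_mem_erase hk)
    rw [Finset.sum_const, nsmul_eq_mul] at h1
    have h2 : ((Finset.univ.erase i : Finset (Fin d)).card : ℝ) ≤ d := by
      have := Finset.card_le_card (Finset.erase_subset i (Finset.univ : Finset (Fin d)))
      rw [Finset.card_univ, Fintype.card_fin] at this
      exact_mod_cast this
    have h3 : (0 : ℝ) ≤ w * n := by positivity
    have h4 := mul_le_mul_of_nonneg_right h2 h3
    linarith
  have hun : ∀ m, ∃ (a : Fin d → ℝ) (γ : Matrix (Fin d) (Fin d) ℤ), (∀ k, 0 < a k) ∧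
      ∏ k, a k = 1 ∧ IsUnit γ.det ∧ (∀ k, |Real.log (a k) - (b m k - (∑ k, b m k) / d)| ≤ R) ∧
        diagonal a * g = g * zR γ := by
    intro m
    refine hunit _ ?_
    rw [Finset.sum_sub_distrib, Finset.sum_const, Finset.card_univ, Fintype.card_fin, nsmul_eq_mul]
    field_simp
    ring
  choose a γ ha0 ha1 hγ halog hag using hun
  -- ratios
  have hlogr : ∀ m k l, a m k * (a m l)⁻¹ = Real.exp (Real.log (a m k) - Real.log (a m l)) := by
    intro m k l
    rw [Real.exp_sub, Real.exp_log (ha0 m k), Real.exp_log (ha0 m l), div_eq_mul_inv]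
  have hrat : ∀ m k l, a m k * (a m l)⁻¹ ≤ Real.exp (2 * R + (b m k - b m l)) := by
    intro m k l
    rw [hlogr]
    apply Real.exp_le_exp.2
    have h1 := (abs_le.1 (halog m k)).2
    have h2 := (abs_le.1 (halog m l)).1
    linarith
  have hrat' : ∀ m k l, Real.exp (-(2 * R) + (b m k - b m l)) ≤ a m k * (a m l)⁻¹ := by
    intro m k l
    rw [hlogr]
    apply Real.exp_le_exp.2
    have h1 := (abs_le.1 (halog m k)).1
    have h2 := (abs_le.1 (halog m l)).2
    linarith
  have hMabs : ∀ m k l, |(Matrix.of fun k l => a m k * X k l * (a m l)⁻¹ :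
      Matrix (Fin d) (Fin d) ℝ) k l| = a m k * (a m l)⁻¹ * |X k l| := by
    intro m k l
    rw [Matrix.of_apply, abs_mul, abs_mul, abs_of_pos (ha0 m k), abs_of_pos (inv_pos.2 (ha0 m l))]
    ring
  have hx : ∀ m, ∃ x ∈ pts d N, |FF ((1 + Matrix.of fun k l => a m k * X k l * (a m l)⁻¹) * g)
      (iR x) - t| < ε := by
    intro m
    refine hcov _ i j t hij ?_ ?_ ?_ ?_ ht
    · intro k
      rw [Matrix.of_apply, hX0, mul_zero, zero_mul]
    · intro l
      rw [hMabs]
      calc a m i * (a m l)⁻¹ * |X i l| ≤ Real.exp (2 * R + (b m i - b m l)) * δ :=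
            mul_le_mul (hrat m i l) (hXδ i l) (abs_nonneg _) (Real.exp_pos _).le
        _ = Real.exp (2 * R + (b m i - b m l) + -Λ) := by
            conv_lhs => rw [hδΛ]
            rw [← Real.exp_add]
        _ ≤ Real.exp (2 * R) := by
            apply Real.exp_le_exp.2
            rw [hbi]
            have := hb0 m l
            linarith
    · rw [hMabs, hijX]
      calc Real.exp (-(2 * R)) = Real.exp (-(2 * R) + (b m i - b m j)) * δ := by
            conv_rhs => rw [hδΛ]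
            rw [← Real.exp_add, hbi, hbj]
            congr 1
            ring
        _ ≤ _ := mul_le_mul_of_nonneg_right (hrat' m i j) hδ.le
    · intro k l hk
      rw [hMabs]
      calc a m k * (a m l)⁻¹ * |X k l| ≤ Real.exp (2 * R + (b m k - b m l)) * δ :=
            mul_le_mul (hrat m k l) (hXδ k l) (abs_nonneg _) (Real.exp_pos _).le
        _ = Real.exp (2 * R + (b m k - b m l) + -Λ) := by
            conv_lhs => rw [hδΛ]
            rw [← Real.exp_add]
        _ ≤ Real.exp (Real.log η) := by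
            apply Real.exp_le_exp.2
            have h1 := hb0 m l
            have h2 := hbn m k hk
            have h3 : 2 * R - Real.log η ≤ s := le_abs_self _
            linarith
        _ = η := Real.exp_log hη
  choose x hxp hxt using hx
  have hxne : ∀ m, x m ≠ 0 := fun m => (mem_pts.1 (hxp m)).1
  set y : ({k : Fin d // k ≠ i ∧ k ≠ j} → Fin (n + 1)) → Fin d → ℤ := fun m => (γ m)⁻¹ *ᵥ x m
    with hy
  have hyne : ∀ m, y m ≠ 0 := by
    intro m h0
    apply hxne m
    have h1 : γ m *ᵥ y m = x m := by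
      rw [hy]
      simp only
      rw [mulVec_mulVec, Matrix.mul_nonsing_inv _ (hγ m), one_mulVec]
    rw [← h1, h0, mulVec_zero]
  have hgy : ∀ m k, (g *ᵥ iR (y m)) k ≠ 0 := by
    intro m k h0
    have h1 := hnu (y m) (hyne m)
    rw [FF_eq, Finset.prod_eq_zero (Finset.mem_univ k) h0, abs_zero] at h1
    exact absurd h1 (not_le.2 hν)
  have hay : ∀ m k, a m k * (g *ᵥ iR (y m)) k = (g *ᵥ iR (x m)) k := fun m k =>
    mulVec_inv_unit (hγ m) (hag m) (x m) k
  have hybound : ∀ m k, |((y m k : ℤ) : ℝ)| ≤ Z := by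
    intro m k
    have h1 : iR (y m) = g⁻¹ *ᵥ (g *ᵥ iR (y m)) := by
      rw [mulVec_mulVec, Matrix.nonsing_inv_mul _ (isUnit_iff_ne_zero.2 hg), one_mulVec]
    have h2 : ((y m k : ℤ) : ℝ) = ∑ l, g⁻¹ k l * (g *ᵥ iR (y m)) l := congrFun h1 k
    have h3 : ∀ l, (a m l)⁻¹ ≤ Real.exp (R + (∑ k, b m k) / d) := by
      intro l
      rw [← Real.exp_log (ha0 m l), ← Real.exp_neg]
      apply Real.exp_le_exp.2
      have h4 := (abs_le.1 (halog m l)).1
      have h5 := hb0 m l
      linarith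
    have h4 : |((y m k : ℤ) : ℝ)| ≤ ∑ l, |g⁻¹ k l| * |(g *ᵥ iR (x m)) l| *
        Real.exp (R + (∑ k, b m k) / d) := by
      rw [h2]
      refine (Finset.abs_sum_le_sum_abs _ _).trans (Finset.sum_le_sum fun l _ => ?_)
      rw [abs_mul, ← hay m l, abs_mul, abs_of_pos (ha0 m l)]
      have h5 : |(g *ᵥ iR (y m)) l| = a m l * |(g *ᵥ iR (y m)) l| * (a m l)⁻¹ := by
        have := (ha0 m l).ne'
        field_simp
      calc |g⁻¹ k l| * |(g *ᵥ iR (y m)) l|
          = |g⁻¹ k l| * (a m l * |(g *ᵥ iR (y m)) l|) * (a m l)⁻¹ := by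
            rw [mul_assoc, ← h5]
        _ ≤ _ := mul_le_mul_of_nonneg_left (h3 l)
            (mul_nonneg (abs_nonneg _) (mul_nonneg (ha0 m l).le (abs_nonneg _)))
    rw [← Finset.sum_mul] at h4
    have h5 : ∑ l, |g⁻¹ k l| * |(g *ᵥ iR (x m)) l| ≤ C₁ := by
      have h6 : ∑ l, |g⁻¹ k l| * |(g *ᵥ iR (x m)) l| ≤
          ∑ k, ∑ l, |g⁻¹ k l| * |(g *ᵥ iR (x m)) l| :=
        Finset.single_le_sum (f := fun k => ∑ l, |g⁻¹ k l| * |(g *ᵥ iR (x m)) l|)
          (fun k _ => Finset.sum_nonneg fun l _ => mul_nonneg (abs_nonneg _) (abs_nonneg _))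
          (Finset.mem_univ k)
      have h7 : ∑ k, ∑ l, |g⁻¹ k l| * |(g *ᵥ iR (x m)) l| ≤
          ∑ x ∈ pts d N, ∑ k, ∑ l, |g⁻¹ k l| * |(g *ᵥ iR x) l| :=
        Finset.single_le_sum (f := fun x => ∑ k, ∑ l, |g⁻¹ k l| * |(g *ᵥ iR x) l|)
          (fun x _ => Finset.sum_nonneg fun k _ => Finset.sum_nonneg fun l _ =>
            mul_nonneg (abs_nonneg _) (abs_nonneg _)) (hxp m)
      rw [hC₁]; linarith
    refine h4.trans ((mul_le_mul_of_nonneg_right h5 (Real.exp_pos _).le).trans ?_)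
    have h6 : C₁ * Real.exp (R + (∑ k, b m k) / d) =
        Real.exp (Real.log C₁ + (R + (∑ k, b m k) / d)) := by
      rw [Real.exp_add (Real.log C₁), Real.exp_log (lt_of_lt_of_le one_pos hC₁1)]
    have h7 : (∑ k, b m k) / d ≤ Λ / d + w * n := by
      rw [div_le_iff₀ hdR]
      have := hbsum m
      have h8 : (Λ / d + w * n) * d = Λ + d * (w * n) := by field_simp
      rw [h8]; exact this
    have h9 : Real.log Z = L + Λ / d := by rw [hLeq]; ring
    rw [h6]
    calc Real.exp (Real.log C₁ + (R + (∑ k, b m k) / d)) ≤ Real.exp (Real.log Z) := by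
          apply Real.exp_le_exp.2
          rw [h9]
          rw [hC₂] at hn1
          linarith
      _ = Z := Real.exp_log hZ0
  refine ⟨Finset.univ.image y, ?_, ?_⟩
  · intro z hz
    obtain ⟨m, -, rfl⟩ := Finset.mem_image.1 hz
    refine ⟨hyne m, hybound m, ?_⟩
    rw [hy]
    simp only
    rw [expand_eq (ha0 m) (ha1 m) (hγ m) (hag m)]
    exact hxt m
  · have hfib : (Finset.univ : Finset ({k : Fin d // k ≠ i ∧ k ≠ j} → Fin (n + 1))).card ≤
        (pts d N).card * (Finset.univ.image y).card := by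
      refine Finset.card_le_mul_card_image _ _ fun z _ => ?_
      refine Finset.card_le_card_of_injOn x (fun m _ => hxp m) ?_
      intro m hm m' hm' hxx
      have hm1 : y m = z := (Finset.mem_filter.1 hm).2
      have hm2 : y m' = z := (Finset.mem_filter.1 hm').2
      have haa : ∀ k, a m k = a m' k := by
        intro k
        have h1 := hay m k
        have h2 := hay m' k
        rw [← hxx, ← h1, hm1, hm2] at h2
        have h3 := hgy m k
        rw [hm1] at h3
        exact (mul_right_cancel₀ h3 h2).symm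
      have hbb : ∀ k : {k : Fin d // k ≠ i ∧ k ≠ j}, |b m k.1 - b m' k.1| ≤ 4 * R := by
        intro k
        have e1 := halog m k.1
        have e2 := halog m' k.1
        have e3 := halog m j
        have e4 := halog m' j
        rw [haa k.1] at e1
        rw [haa j] at e3
        rw [hbj] at e3 e4
        rw [abs_le] at *
        constructor <;> linarith [e1.1, e1.2, e2.1, e2.2, e3.1, e3.2, e4.1, e4.2]
      funext k
      have h1 := hbb k
      rw [hbk, hbk, ← mul_sub, abs_mul, abs_of_pos hw0] at h1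
      by_contra hne
      have h2 : (1 : ℝ) ≤ |((m k : ℕ) : ℝ) - ((m' k : ℕ) : ℝ)| := by
        have h3 : ((m k : ℕ) : ℤ) - ((m' k : ℕ) : ℤ) ≠ 0 := by
          intro h
          apply hne
          apply Fin.ext
          omega
        have h4 := Int.one_le_abs h3
        exact_mod_cast h4
      have h3 := mul_le_mul_of_nonneg_left h2 hw0.le
      rw [mul_one] at h3
      rw [hw] at h1 h3
      linarith
    rw [Finset.card_univ, Fintype.card_fun, Fintype.card_fin] at hfib
    have hcard : Fintype.card {k : Fin d // k ≠ i ∧ k ≠ j} = d - 2 := by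
      rw [Fintype.card_subtype]
      have h1 : (Finset.univ.filter fun k : Fin d => k ≠ i ∧ k ≠ j) =
          (Finset.univ.erase i).erase j := by
        ext k
        simp [and_comm]
      rw [h1, Finset.card_erase_of_mem, Finset.card_erase_of_mem (Finset.mem_univ i),
        Finset.card_univ, Fintype.card_fin]
      · omega
      · rw [Finset.mem_erase]
        exact ⟨hij.symm, Finset.mem_univ _⟩
    rw [hcard] at hfib
    have hfib' : ((n : ℝ) + 1) ^ (d - 2) ≤ P * ((Finset.univ.image y).card : ℝ) := by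
      have h1 : (((n + 1) ^ (d - 2) : ℕ) : ℝ) ≤
          (((pts d N).card * (Finset.univ.image y).card : ℕ) : ℝ) := by exact_mod_cast hfib
      push_cast at h1
      refine h1.trans (mul_le_mul_of_nonneg_right ?_ (Nat.cast_nonneg _))
      rw [hPdef]
      exact (lt_add_one _).le
    have hL1 : 1 + L ≤ (w + 1 + C₂) * ((n : ℝ) + 1) := by
      have h0 : (0 : ℝ) ≤ n := Nat.cast_nonneg _
      have h1 : (1 + C₂) * 1 ≤ (1 + C₂) * ((n : ℝ) + 1) :=
        mul_le_mul_of_nonneg_left (by linarith) (by linarith)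
      have h2 : (w + 1 + C₂) * ((n : ℝ) + 1) = w * (n + 1) + (1 + C₂) * ((n : ℝ) + 1) := by ring
      rw [h2]
      linarith
    have hL0 : 0 ≤ 1 + L := by linarith
    have h5 : (1 + L) ^ (d - 2) ≤ (w + 1 + C₂) ^ (d - 2) * ((n : ℝ) + 1) ^ (d - 2) := by
      rw [← mul_pow]
      exact pow_le_pow_left₀ hL0 hL1 _
    have h6 : 0 < (w + 1 + C₂) ^ (d - 2) := by positivity
    rw [one_div, mul_comm, ← div_eq_mul_inv, div_le_iff₀ (mul_pos hP0 h6)]
    calc (1 + L) ^ (d - 2) ≤ (w + 1 + C₂) ^ (d - 2) * ((n : ℝ) + 1) ^ (d - 2) := h5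
      _ ≤ (w + 1 + C₂) ^ (d - 2) * (P * ((Finset.univ.image y).card : ℝ)) :=
          mul_le_mul_of_nonneg_left hfib' h6.le
      _ = _ := by ring

end Pool.Agent.R750.SI
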