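import Mathlib
import Pool.Agent.H715R2.Orbit

/-! # Values at small integer points -/

open Filter Topology Matrix

namespace Pool.Agent.R750.SI

open H715R2

variable {d : ℕ}

lemma prod_diff {ι : Type*} [DecidableEq ι] (s : Finset ι) (a e : ι → ℝ) {A δ : ℝ} (hA : 0 ≤ A)
    (hδ : 0 ≤ δ) (hδ1 : δ ≤ 1) (ha : ∀ i ∈ s, |a i| ≤ A) (he : ∀ i ∈ s, |e i| ≤ δ * A) :
    |∏ i ∈ s, (a i + e i)| ≤ 2 ^ s.card * A ^ s.card ∧
    |∏ i ∈ s, (a i + e i) - ∏ i ∈ s, a i| ≤ 2 ^ s.card * δ * A ^ s.card ∧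
      |∏ i ∈ s, a i| ≤ A ^ s.card := by
  induction s using Finset.induction_on with
  | empty => simp; exact hδ
  | insert i s hi ih =>
    obtain ⟨h1, h2, h3⟩ := ih (fun j hj => ha j (Finset.mem_insert_of_mem hj))
      (fun j hj => he j (Finset.mem_insert_of_mem hj))
    have hai := ha i (Finset.mem_insert_self i s)
    have hei := he i (Finset.mem_insert_self i s)
    have hei' : |e i| ≤ A := hei.trans (mul_le_of_le_one_left hA hδ1)
    rw [Finset.prod_insert hi, Finset.prod_insert hi, Finset.card_insert_of_notMem hi]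
    have hAn : 0 ≤ A ^ s.card := pow_nonneg hA _
    refine ⟨?_, ?_, ?_⟩
    · rw [abs_mul]
      have h4 : |a i + e i| ≤ 2 * A := (abs_add_le _ _).trans (by linarith)
      calc |a i + e i| * |∏ j ∈ s, (a j + e j)| ≤ (2 * A) * (2 ^ s.card * A ^ s.card) :=
            mul_le_mul h4 h1 (abs_nonneg _) (by positivity)
        _ = _ := by ring
    · have h4 : (a i + e i) * ∏ j ∈ s, (a j + e j) - a i * ∏ j ∈ s, a j =
          e i * ∏ j ∈ s, (a j + e j) + a i * (∏ j ∈ s, (a j + e j) - ∏ j ∈ s, a j) := by ring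
      rw [h4]
      refine (abs_add_le _ _).trans ?_
      rw [abs_mul, abs_mul]
      calc |e i| * |∏ j ∈ s, (a j + e j)| + |a i| * |∏ j ∈ s, (a j + e j) - ∏ j ∈ s, a j|
          ≤ (δ * A) * (2 ^ s.card * A ^ s.card) + A * (2 ^ s.card * δ * A ^ s.card) :=
            add_le_add (mul_le_mul hei h1 (abs_nonneg _) (by positivity))
              (mul_le_mul hai h2 (abs_nonneg _) hA)
        _ = _ := by ring
    · rw [abs_mul, pow_succ']
      exact mul_le_mul hai h3 (abs_nonneg _) hA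

theorem lower (hd : 0 < d) (g : Matrix (Fin d) (Fin d) ℝ) (ε : ℝ) (hε : 0 < ε) :
    ∃ c : ℝ, 0 < c ∧ ∀ (X : Matrix (Fin d) (Fin d) ℝ) (δ : ℝ), (∀ i j, |X i j| ≤ δ) → 0 < δ →
      δ ≤ 1 → ∀ x : Fin d → ℤ, (∀ k, |(x k : ℝ)| ≤ c * δ ^ (-(1 / (d : ℝ)))) →
      |FF ((1 + X) * g) (iR x) - FF g (iR x)| < ε := by
  set G : ℝ := 1 + ∑ k, ∑ l, |g k l| with hG
  have hG0 : 0 < G := by
    have : 0 ≤ ∑ k, ∑ l, |g k l| := Finset.sum_nonneg fun k _ => Finset.sum_nonneg fun l _ =>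
      abs_nonneg _
    linarith
  have hdR : (0 : ℝ) < d := by exact_mod_cast hd
  set W : ℝ := 2 * (d * G) with hW
  have hW0 : 0 < W := by positivity
  set c₀ : ℝ := (ε / 2) ^ (1 / (d : ℝ)) with hc₀
  have hc₀0 : 0 < c₀ := by positivity
  have hc₀d : c₀ ^ d = ε / 2 := by
    rw [hc₀, one_div, Real.rpow_inv_natCast_pow (by positivity) hd.ne']
  refine ⟨c₀ / W, by positivity, ?_⟩
  intro X δ hX hδ hδ1 x hx
  set Z : ℝ := c₀ / W * δ ^ (-(1 / (d : ℝ))) with hZ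
  have hZ0 : 0 < Z := by positivity
  have hl : ∀ k, |(g *ᵥ iR x) k| ≤ G * Z := by
    intro k
    have h1 : (g *ᵥ iR x) k = ∑ l, g k l * (x l : ℝ) := rfl
    rw [h1]
    calc |∑ l, g k l * (x l : ℝ)| ≤ ∑ l, |g k l * (x l : ℝ)| := Finset.abs_sum_le_sum_abs _ _
      _ ≤ ∑ l, |g k l| * Z := Finset.sum_le_sum fun l _ => by
          rw [abs_mul]; exact mul_le_mul_of_nonneg_left (hx l) (abs_nonneg _)
      _ = (∑ l, |g k l|) * Z := by rw [Finset.sum_mul]
      _ ≤ G * Z := by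
          refine mul_le_mul_of_nonneg_right ?_ hZ0.le
          have h2 : ∑ l, |g k l| ≤ ∑ k, ∑ l, |g k l| :=
            Finset.single_le_sum (f := fun k => ∑ l, |g k l|)
              (fun k _ => Finset.sum_nonneg fun l _ => abs_nonneg _) (Finset.mem_univ k)
          linarith
  have hd1 : (1 : ℝ) ≤ d := by exact_mod_cast hd
  set A : ℝ := d * G * Z with hA
  have hA0 : 0 ≤ A := by positivity
  have hla : ∀ k, |(g *ᵥ iR x) k| ≤ A := by
    intro k
    refine (hl k).trans ?_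
    rw [hA, mul_assoc]
    exact le_mul_of_one_le_left (by positivity) hd1
  have hle : ∀ k, |(X *ᵥ (g *ᵥ iR x)) k| ≤ δ * A := by
    intro k
    have h1 : (X *ᵥ (g *ᵥ iR x)) k = ∑ l, X k l * (g *ᵥ iR x) l := rfl
    rw [h1]
    calc |∑ l, X k l * (g *ᵥ iR x) l| ≤ ∑ l, |X k l * (g *ᵥ iR x) l| :=
          Finset.abs_sum_le_sum_abs _ _
      _ ≤ ∑ _l : Fin d, δ * (G * Z) := Finset.sum_le_sum fun l _ => by
          rw [abs_mul]; exact mul_le_mul (hX k l) (hl l) (abs_nonneg _) hδ.le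
      _ = δ * A := by
          rw [Finset.sum_const, Finset.card_univ, Fintype.card_fin, nsmul_eq_mul, hA]; ring
  obtain ⟨-, h2, -⟩ := prod_diff Finset.univ (fun k => (g *ᵥ iR x) k)
    (fun k => (X *ᵥ (g *ᵥ iR x)) k) hA0 hδ.le hδ1 (fun k _ => hla k) (fun k _ => hle k)
  have h3 : FF ((1 + X) * g) (iR x) = ∏ k, ((g *ᵥ iR x) k + (X *ᵥ (g *ᵥ iR x)) k) := by
    rw [FF_eq]
    refine Finset.prod_congr rfl fun k _ => ?_
    rw [← mulVec_mulVec, add_mulVec, one_mulVec]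
    rfl
  rw [h3, FF_eq]
  refine lt_of_le_of_lt h2 ?_
  rw [Finset.card_univ, Fintype.card_fin]
  have h4 : (2 : ℝ) ^ d * δ * A ^ d = ε / 2 := by
    have h5 : 2 * A = c₀ * δ ^ (-(1 / (d : ℝ))) := by
      have h7 : 2 * A = W * Z := by rw [hA, hW]; ring
      rw [h7, hZ, ← mul_assoc, mul_div_cancel₀ _ hW0.ne']
    have h6 : (δ ^ (-(1 / (d : ℝ)))) ^ d = δ⁻¹ := by
      rw [← Real.rpow_natCast, ← Real.rpow_mul hδ.le]
      have : -(1 / (d : ℝ)) * (d : ℝ) = -1 := by field_simp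
      rw [this, Real.rpow_neg_one]
    calc (2 : ℝ) ^ d * δ * A ^ d = δ * (2 * A) ^ d := by rw [mul_pow 2 A d]; ring
      _ = δ * (c₀ ^ d * δ⁻¹) := by rw [h5, mul_pow c₀ _ d, h6]
      _ = ε / 2 := by rw [hc₀d]; field_simp
  rw [h4]
  linarith

end Pool.Agent.R750.SI
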